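import Pool.Agent.H31.BOU.Targets1

/-!
Row EN of bou_modules: the energy lemma for one piece.
-/

set_option autoImplicit false

namespace Pool.Agent.H94.BOU

open Finset Pool.Agent.H31.BOU

/-- the average over the three children -/
noncomputable def Pm (g : ℤ → ℝ) (κ : ℤ) : ℝ := (g (2 * κ) + 2 * g (2 * κ + 1) + g (2 * κ + 2)) / 4

theorem sum_Ico_succ (lo : ℤ) (n : ℕ) (g : ℤ → ℝ) :
    ∑ κ ∈ Ico lo (lo + ((n + 1 : ℕ) : ℤ)), g κ = ∑ κ ∈ Ico lo (lo + (n : ℤ)), g κ + g (lo + n) := by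
  have h : Ico lo (lo + ((n + 1 : ℕ) : ℤ)) = insert (lo + (n : ℤ)) (Ico lo (lo + (n : ℤ))) := by
    ext x
    simp only [mem_Ico, mem_insert]
    push_cast
    omega
  rw [h, sum_insert (by simp)]
  ring

theorem sumP_aux (lo : ℤ) (n : ℕ) (g : ℤ → ℝ) :
    ∑ κ ∈ Ico lo (lo + (n : ℤ)), Pm g κ =
      (∑ κ ∈ Ico (2 * lo) (2 * (lo + (n : ℤ))), g κ) / 2 + (g (2 * (lo + n)) - g (2 * lo)) / 4 := by
  induction n with
  | zero => simp
  | succ n ih =>
    rw [sum_Ico_succ, ih]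
    have h : Ico (2 * lo) (2 * (lo + ((n + 1 : ℕ) : ℤ))) =
        insert (2 * (lo + (n : ℤ)) + 1) (insert (2 * (lo + (n : ℤ)))
          (Ico (2 * lo) (2 * (lo + (n : ℤ))))) := by
      ext x
      simp only [mem_Ico, mem_insert]
      push_cast
      omega
    rw [h, sum_insert (by simp), sum_insert (by simp)]
    unfold Pm
    have e : (2 * (lo + ((n + 1 : ℕ) : ℤ))) = 2 * (lo + (n : ℤ)) + 2 := by push_cast; ring
    rw [e]
    ring

theorem sumP (lo hi : ℤ) (h : lo ≤ hi) (g : ℤ → ℝ) (h1 : g (2 * lo) = 0) (h2 : g (2 * hi) = 0) :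
    ∑ κ ∈ Ico lo hi, Pm g κ = (∑ κ ∈ Ico (2 * lo) (2 * hi), g κ) / 2 := by
  obtain ⟨n, rfl⟩ : ∃ n : ℕ, hi = lo + n := ⟨(hi - lo).toNat, by omega⟩
  rw [sumP_aux, h1, h2]
  simp

/-- the nodes of scale `j` over the block `(i, m)` -/
noncomputable def Sn (i : ℕ) (m : ℤ) (j : ℕ) : Finset ℤ := Ico (m * 2 ^ (i - j)) ((m + 1) * 2 ^ (i - j))

theorem tele (i : ℕ) (m : ℤ) (g : ℕ → ℤ → ℝ) (h1 : ∀ j < i, g j (m * 2 ^ (i - j)) = 0)
    (h2 : ∀ j < i, g j ((m + 1) * 2 ^ (i - j)) = 0) :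
    ∑ j ∈ range i, (2 : ℝ) ^ (j + 1) * ∑ κ ∈ Sn i m (j + 1), (Pm (g j) κ - g (j + 1) κ) =
      ∑ κ ∈ Sn i m 0, g 0 κ - 2 ^ i * ∑ κ ∈ Sn i m i, g i κ := by
  have h3 : ∀ j ∈ range i, (2 : ℝ) ^ (j + 1) * ∑ κ ∈ Sn i m (j + 1), (Pm (g j) κ - g (j + 1) κ) =
      2 ^ j * ∑ κ ∈ Sn i m j, g j κ - 2 ^ (j + 1) * ∑ κ ∈ Sn i m (j + 1), g (j + 1) κ := by
    intro j hj
    rw [mem_range] at hj
    rw [sum_sub_distrib, mul_sub]
    congr 1
    have e : (2 : ℤ) ^ (i - j) = 2 * 2 ^ (i - (j + 1)) := by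
      rw [show i - j = (i - (j + 1)) + 1 by omega, pow_succ]
      ring
    have e1 : m * 2 ^ (i - j) = 2 * (m * 2 ^ (i - (j + 1))) := by rw [e]; ring
    have e2 : (m + 1) * 2 ^ (i - j) = 2 * ((m + 1) * 2 ^ (i - (j + 1))) := by rw [e]; ring
    have h4 := h1 j hj
    have h5 := h2 j hj
    unfold Sn
    rw [e1] at h4 ⊢
    rw [e2] at h5 ⊢
    rw [sumP _ _ _ (g j) h4 h5, pow_succ]
    · ring
    · have : (0 : ℤ) < 2 ^ (i - (j + 1)) := by positivity
      nlinarith
  rw [sum_congr rfl h3, sum_range_sub' (fun j => (2 : ℝ) ^ j * ∑ κ ∈ Sn i m j, g j κ) i]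
  simp

theorem long_mem {r i : ℕ} {m : ℤ} {j : ℕ} {κ : ℤ} (hj : j ≤ i) (h : long r i m j κ) :
    m * 2 ^ (i - j) + r ≤ κ ∧ κ + r ≤ (m + 1) * 2 ^ (i - j) := by
  obtain ⟨h1, h2⟩ := h
  have e : (2 : ℤ) ^ i = 2 ^ (i - j) * 2 ^ j := by
    rw [← pow_add]
    congr 1
    omega
  have hp : (0 : ℤ) < 2 ^ j := by positivity
  rw [e, ← mul_assoc] at h1 h2
  have h3 := le_of_mul_le_mul_right h1 hp
  have h4 := le_of_mul_le_mul_right h2 hp
  constructor
  · linarith
  · exact h4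

theorem long_child {r i : ℕ} {m : ℤ} {j : ℕ} {κ : ℤ} (hr : 2 ≤ r) (h : long r i m (j + 1) κ)
    {c : ℤ} (hc0 : 0 ≤ c) (hc2 : c ≤ 2) : long r i m j (2 * κ + c) := by
  obtain ⟨h1, h2⟩ := h
  have hp : (0 : ℤ) < 2 ^ j := by positivity
  have hr' : (2 : ℤ) ≤ r := by exact_mod_cast hr
  rw [pow_succ] at h1 h2
  constructor
  · refine h1.trans ?_
    have : (κ - r) * (2 ^ j * 2) = (2 * κ - 2 * r) * 2 ^ j := by ring
    rw [this]
    exact mul_le_mul_of_nonneg_right (by linarith) hp.le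
  · refine le_trans ?_ h2
    have : (κ + r) * (2 ^ j * 2) = (2 * κ + 2 * r) * 2 ^ j := by ring
    rw [this]
    exact mul_le_mul_of_nonneg_right (by linarith) hp.le

open Classical in
/-- the indicator of the long nodes -/
noncomputable def Li (r i : ℕ) (m : ℤ) (j : ℕ) (κ : ℤ) : ℝ := if long r i m j κ then 1 else 0

open Classical in
/-- the indicator of the alive nodes -/
noncomputable def Ai (r i : ℕ) (m : ℤ) (f : ℕ → ℤ → Prop) (j : ℕ) (κ : ℤ) : ℝ :=
  if long r i m j κ ∧ f j κ then 1 else 0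

theorem Li_nonneg (r i : ℕ) (m : ℤ) (j : ℕ) (κ : ℤ) : 0 ≤ Li r i m j κ := by
  unfold Li; split_ifs <;> norm_num

theorem Li_le (r i : ℕ) (m : ℤ) (j : ℕ) (κ : ℤ) : Li r i m j κ ≤ 1 := by
  unfold Li; split_ifs <;> norm_num

theorem Ai_nonneg (r i : ℕ) (m : ℤ) (f : ℕ → ℤ → Prop) (j : ℕ) (κ : ℤ) : 0 ≤ Ai r i m f j κ := by
  unfold Ai; split_ifs <;> norm_num

theorem Ai_le_Li (r i : ℕ) (m : ℤ) (f : ℕ → ℤ → Prop) (j : ℕ) (κ : ℤ) :
    Ai r i m f j κ ≤ Li r i m j κ := by
  unfold Ai Li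
  by_cases h1 : long r i m j κ
  · by_cases h2 : f j κ
    · simp [h1, h2]
    · simp [h1, h2]
  · simp [h1]

theorem ends {r i : ℕ} {m : ℤ} (hr : 2 ≤ r) {j : ℕ} (hj : j ≤ i) :
    ¬ long r i m j (m * 2 ^ (i - j)) ∧ ¬ long r i m j ((m + 1) * 2 ^ (i - j)) := by
  have hr' : (2 : ℤ) ≤ r := by exact_mod_cast hr
  constructor
  · intro h
    have := (long_mem hj h).1
    linarith
  · intro h
    have := (long_mem hj h).2
    linarith

theorem top_not_long {r i : ℕ} {m : ℤ} (hr : 2 ≤ r) (κ : ℤ) : ¬ long r i m i κ := by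
  intro h
  have hr' : (2 : ℤ) ≤ r := by exact_mod_cast hr
  have := long_mem le_rfl h
  rw [Nat.sub_self, pow_zero] at this
  linarith [this.1, this.2]

theorem card_S0 (i : ℕ) (m : ℤ) : ((Sn i m 0).card : ℝ) = 2 ^ i := by
  unfold Sn
  rw [Int.card_Ico, Nat.sub_zero]
  have : (m + 1) * 2 ^ i - m * 2 ^ i = ((2 ^ i : ℕ) : ℤ) := by push_cast; ring
  rw [this, Int.toNat_natCast]
  push_cast
  rfl

section main

variable (i : ℕ) (m : ℤ) (r : ℕ) (φ : ℕ → ℤ → ℂ) (f : ℕ → ℤ → Prop) (σ : ℝ)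

theorem pl_eq (hr : 2 ≤ r) {j : ℕ} {κ : ℤ} (h : long r i m (j + 1) κ) :
    Pm (Li r i m j) κ = 1 := by
  have h0 := long_child hr h (c := 0) le_rfl (by norm_num)
  have h1 := long_child hr h (c := 1) (by norm_num) (by norm_num)
  have h2 := long_child hr h (c := 2) (by norm_num) le_rfl
  rw [add_zero] at h0
  unfold Pm Li
  rw [if_pos h0, if_pos h1, if_pos h2]
  norm_num

theorem pa_eq_zero (hf : ∀ j κ c, 0 ≤ c → c ≤ 2 → f j (2 * κ + c) → f (j + 1) κ) {j : ℕ} {κ : ℤ}
    (h : ¬ f (j + 1) κ) : Pm (Ai r i m f j) κ = 0 := by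
  have h0 : ¬ f j (2 * κ) := fun h' => h (hf j κ 0 le_rfl (by norm_num) (by rwa [add_zero]))
  have h1 : ¬ f j (2 * κ + 1) := fun h' => h (hf j κ 1 (by norm_num) (by norm_num) h')
  have h2 : ¬ f j (2 * κ + 2) := fun h' => h (hf j κ 2 (by norm_num) le_rfl h')
  unfold Pm Ai
  simp [h0, h1, h2]

theorem pa_nonneg (j : ℕ) (κ : ℤ) : 0 ≤ Pm (Ai r i m f j) κ := by
  unfold Pm
  have := Ai_nonneg r i m f j
  linarith [this (2 * κ), this (2 * κ + 1), this (2 * κ + 2)]

theorem pa_le_pl (j : ℕ) (κ : ℤ) : Pm (Ai r i m f j) κ ≤ Pm (Li r i m j) κ := by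
  unfold Pm
  have := Ai_le_Li r i m f j
  linarith [this (2 * κ), this (2 * κ + 1), this (2 * κ + 2)]

/-- the death indicator -/
noncomputable def dth (j : ℕ) (κ : ℤ) : ℝ := Ai r i m f (j + 1) κ * (1 - Pm (Ai r i m f j) κ)

theorem dth_le (hr : 2 ≤ r) (hf : ∀ j κ c, 0 ≤ c → c ≤ 2 → f j (2 * κ + c) → f (j + 1) κ) (j : ℕ)
    (κ : ℤ) : dth i m r f j κ ≤ (Pm (Li r i m j) κ - Li r i m (j + 1) κ) -
      (Pm (Ai r i m f j) κ - Ai r i m f (j + 1) κ) := by
  unfold dth
  by_cases h1 : long r i m (j + 1) κ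
  · rw [pl_eq i m r hr h1]
    have e1 : Li r i m (j + 1) κ = 1 := by unfold Li; rw [if_pos h1]
    by_cases h2 : f (j + 1) κ
    · have e2 : Ai r i m f (j + 1) κ = 1 := by unfold Ai; rw [if_pos ⟨h1, h2⟩]
      rw [e1, e2]
      linarith
    · have e2 : Ai r i m f (j + 1) κ = 0 := by unfold Ai; rw [if_neg fun h => h2 h.2]
      rw [e1, e2, pa_eq_zero i m r f hf h2]
      norm_num
  · have e1 : Li r i m (j + 1) κ = 0 := by unfold Li; rw [if_neg h1]
    have e2 : Ai r i m f (j + 1) κ = 0 := by unfold Ai; rw [if_neg fun h => h1 h.1]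
    rw [e1, e2]
    have := pa_le_pl i m r f j κ
    linarith

theorem brt_le (hr : 2 ≤ r) (hf : ∀ j κ c, 0 ≤ c → c ≤ 2 → f j (2 * κ + c) → f (j + 1) κ) (j : ℕ)
    (κ : ℤ) : (1 - Ai r i m f (j + 1) κ) * Pm (Ai r i m f j) κ ≤
      Pm (Li r i m j) κ - Li r i m (j + 1) κ := by
  by_cases h1 : long r i m (j + 1) κ
  · rw [pl_eq i m r hr h1]
    have e1 : Li r i m (j + 1) κ = 1 := by unfold Li; rw [if_pos h1]
    by_cases h2 : f (j + 1) κ
    · have e2 : Ai r i m f (j + 1) κ = 1 := by unfold Ai; rw [if_pos ⟨h1, h2⟩]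
      rw [e1, e2]
      linarith
    · rw [e1, pa_eq_zero i m r f hf h2]
      norm_num
  · have e1 : Li r i m (j + 1) κ = 0 := by unfold Li; rw [if_neg h1]
    have e2 : Ai r i m f (j + 1) κ = 0 := by unfold Ai; rw [if_neg fun h => h1 h.1]
    rw [e1, e2]
    have := pa_le_pl i m r f j κ
    linarith

theorem tele_L (hr : 2 ≤ r) :
    ∑ j ∈ range i, (2 : ℝ) ^ (j + 1) * ∑ κ ∈ Sn i m (j + 1),
      (Pm (Li r i m j) κ - Li r i m (j + 1) κ) ≤ 2 ^ i := by
  rw [tele i m (Li r i m)]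
  · have h1 : ∑ κ ∈ Sn i m i, Li r i m i κ = 0 := by
      refine sum_eq_zero fun κ _ => ?_
      unfold Li
      rw [if_neg (top_not_long hr κ)]
    rw [h1, mul_zero, sub_zero, ← card_S0 i m]
    refine (sum_le_sum fun κ _ => Li_le r i m 0 κ).trans ?_
    simp
  · intro j hj
    unfold Li
    rw [if_neg (ends hr hj.le).1]
  · intro j hj
    unfold Li
    rw [if_neg (ends hr hj.le).2]

theorem tele_A (hr : 2 ≤ r) : 0 ≤
    ∑ j ∈ range i, (2 : ℝ) ^ (j + 1) * ∑ κ ∈ Sn i m (j + 1),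
      (Pm (Ai r i m f j) κ - Ai r i m f (j + 1) κ) := by
  rw [tele i m (Ai r i m f)]
  · have h1 : ∑ κ ∈ Sn i m i, Ai r i m f i κ = 0 := by
      refine sum_eq_zero fun κ _ => ?_
      unfold Ai
      rw [if_neg fun h => top_not_long hr κ h.1]
    rw [h1, mul_zero, sub_zero]
    exact sum_nonneg fun κ _ => Ai_nonneg r i m f 0 κ
  · intro j hj
    unfold Ai
    rw [if_neg fun h => (ends hr hj.le).1 h.1]
  · intro j hj
    unfold Ai
    rw [if_neg fun h => (ends hr hj.le).2 h.1]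

theorem deaths (hr : 2 ≤ r) (hf : ∀ j κ c, 0 ≤ c → c ≤ 2 → f j (2 * κ + c) → f (j + 1) κ) :
    ∑ j ∈ range i, (2 : ℝ) ^ (j + 1) * ∑ κ ∈ Sn i m (j + 1), dth i m r f j κ ≤ 2 ^ i := by
  have h1 : ∑ j ∈ range i, (2 : ℝ) ^ (j + 1) * ∑ κ ∈ Sn i m (j + 1), dth i m r f j κ ≤
      ∑ j ∈ range i, (2 : ℝ) ^ (j + 1) * ∑ κ ∈ Sn i m (j + 1),
        ((Pm (Li r i m j) κ - Li r i m (j + 1) κ) -
        (Pm (Ai r i m f j) κ - Ai r i m f (j + 1) κ)) :=
    sum_le_sum fun j _ => mul_le_mul_of_nonneg_left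
      (sum_le_sum fun κ _ => dth_le i m r f hr hf j κ) (by positivity)
  refine h1.trans ?_
  simp only [sum_sub_distrib (f := fun κ => Pm (Li r i m _) κ - Li r i m _ κ), mul_sub]
  have h2 := tele_L i m r hr
  have h3 := tele_A i m r f hr
  simp only [sum_sub_distrib, mul_sub] at h2 h3 ⊢
  linarith

end main

open Classical in
theorem pf_EN : T_EN := by
  intro i m r φ f σ hr hσ hφ hf hb hbc
  refine ⟨?_, ?_, ?_⟩
  · -- the variances
    set g : ℕ → ℤ → ℝ := fun j κ => Ai r i m f j κ * ‖φ j κ‖ ^ 2 with hg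
    have hg0 : ∀ j κ, 0 ≤ g j κ := fun j κ => mul_nonneg (Ai_nonneg r i m f j κ) (sq_nonneg _)
    have hgb : ∀ j κ, g j κ ≤ σ ^ 2 := by
      intro j κ
      simp only [hg]
      unfold Ai
      split_ifs with h
      · rw [one_mul]
        exact pow_le_pow_left₀ (norm_nonneg _) (hb j κ h.1 h.2) 2
      · rw [zero_mul]; positivity
    have hstep : ∀ j κ, (if long r i m (j + 1) κ ∧ f (j + 1) κ then vr φ j κ else 0) ≤
        (Pm (g j) κ - g (j + 1) κ) + 8 * σ ^ 2 * dth i m r f j κ := by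
      intro j κ
      have hP0 : 0 ≤ Pm (g j) κ := by
        unfold Pm
        linarith [hg0 j (2 * κ), hg0 j (2 * κ + 1), hg0 j (2 * κ + 2)]
      split_ifs with h
      · have e1 : Ai r i m f (j + 1) κ = 1 := by unfold Ai; rw [if_pos h]
        have l0 := long_child hr h.1 (c := 0) le_rfl (by norm_num)
        have l1 := long_child hr h.1 (c := 1) (by norm_num) (by norm_num)
        have l2 := long_child hr h.1 (c := 2) (by norm_num) le_rfl
        rw [add_zero] at l0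
        have b0 := hbc j κ 0 le_rfl (by norm_num) h.1 h.2
        have b1 := hbc j κ 1 (by norm_num) (by norm_num) h.1 h.2
        have b2 := hbc j κ 2 (by norm_num) le_rfl h.1 h.2
        rw [add_zero] at b0
        have s0 := pow_le_pow_left₀ (norm_nonneg _) b0 2
        have s1 := pow_le_pow_left₀ (norm_nonneg _) b1 2
        have s2 := pow_le_pow_left₀ (norm_nonneg _) b2 2
        by_cases hall : f j (2 * κ) ∧ f j (2 * κ + 1) ∧ f j (2 * κ + 2)
        · obtain ⟨a0, a1, a2⟩ := hall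
          have e2 : g (j + 1) κ = ‖φ (j + 1) κ‖ ^ 2 := by simp only [hg]; rw [e1, one_mul]
          have e3 : ∀ c : ℤ, long r i m j (2 * κ + c) → f j (2 * κ + c) →
              g j (2 * κ + c) = ‖φ j (2 * κ + c)‖ ^ 2 := by
            intro c h1 h2
            simp only [hg]
            unfold Ai
            rw [if_pos ⟨h1, h2⟩, one_mul]
          have e4 := e3 0 (by rwa [add_zero]) (by rwa [add_zero])
          rw [add_zero] at e4
          have e5 := e3 1 l1 a1
          have e6 := e3 2 l2 a2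
          have e7 : dth i m r f j κ = 0 := by
            unfold dth
            have : Pm (Ai r i m f j) κ = 1 := by
              unfold Pm Ai
              rw [if_pos ⟨l0, a0⟩, if_pos ⟨l1, a1⟩, if_pos ⟨l2, a2⟩]
              norm_num
            rw [this]
            ring
          rw [e7, e2]
          unfold Pm vr
          rw [e4, e5, e6]
          linarith
        · have hd : 1 / 4 ≤ dth i m r f j κ := by
            unfold dth
            rw [e1, one_mul]
            have hle : Pm (Ai r i m f j) κ ≤ 3 / 4 := by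
              have q : ∀ c : ℤ, Ai r i m f j (2 * κ + c) ≤ 1 := fun c =>
                (Ai_le_Li r i m f j _).trans (Li_le r i m j _)
              have q0 := q 0
              rw [add_zero] at q0
              have q1 := q 1
              have q2 := q 2
              have z : ∀ κ', ¬ f j κ' → Ai r i m f j κ' = 0 := fun κ' h' => by
                unfold Ai; rw [if_neg fun h => h' h.2]
              unfold Pm
              by_cases a0 : f j (2 * κ)
              · by_cases a1 : f j (2 * κ + 1)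
                · have a2 : ¬ f j (2 * κ + 2) := fun a2 => hall ⟨a0, a1, a2⟩
                  rw [z _ a2]
                  linarith
                · rw [z _ a1]
                  linarith
              · rw [z _ a0]
                linarith
            linarith
          have hv : vr φ j κ ≤ σ ^ 2 := by
            unfold vr
            have := sq_nonneg ‖φ (j + 1) κ‖
            linarith
          have := hgb (j + 1) κ
          nlinarith [sq_nonneg σ]
      · have e1 : g (j + 1) κ = 0 := by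
          simp only [hg]
          unfold Ai
          rw [if_neg h, zero_mul]
        have e2 : dth i m r f j κ = 0 := by
          unfold dth Ai
          rw [if_neg h, zero_mul]
        rw [e1, e2]
        linarith
    have h1 : (∑ j ∈ range i, 2 ^ (j + 1) * ∑ κ ∈ Sn i m (j + 1),
        (if long r i m (j + 1) κ ∧ f (j + 1) κ then vr φ j κ else 0)) ≤
        ∑ j ∈ range i, (2 : ℝ) ^ (j + 1) * ∑ κ ∈ Sn i m (j + 1),
          ((Pm (g j) κ - g (j + 1) κ) + 8 * σ ^ 2 * dth i m r f j κ) :=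
      sum_le_sum fun j _ => mul_le_mul_of_nonneg_left
        (sum_le_sum fun κ _ => hstep j κ) (by positivity)
    refine h1.trans ?_
    have h2 : ∑ j ∈ range i, (2 : ℝ) ^ (j + 1) * ∑ κ ∈ Sn i m (j + 1),
          ((Pm (g j) κ - g (j + 1) κ) + 8 * σ ^ 2 * dth i m r f j κ) =
        ∑ j ∈ range i, (2 : ℝ) ^ (j + 1) * ∑ κ ∈ Sn i m (j + 1), (Pm (g j) κ - g (j + 1) κ) +
        8 * σ ^ 2 * ∑ j ∈ range i, (2 : ℝ) ^ (j + 1) * ∑ κ ∈ Sn i m (j + 1),
          dth i m r f j κ := by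
      rw [mul_sum, ← sum_add_distrib]
      refine sum_congr rfl fun j _ => ?_
      rw [sum_add_distrib, ← mul_sum]
      ring
    rw [h2, tele i m g]
    · have h3 : ∑ κ ∈ Sn i m i, g i κ = 0 := by
        refine sum_eq_zero fun κ _ => ?_
        simp only [hg]
        unfold Ai
        rw [if_neg fun h => top_not_long hr κ h.1, zero_mul]
      have h4 : ∑ κ ∈ Sn i m 0, g 0 κ ≤ σ ^ 2 * 2 ^ i := by
        refine (sum_le_sum fun κ _ => hgb 0 κ).trans ?_
        rw [sum_const, nsmul_eq_mul, card_S0, mul_comm]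
      have h5 := deaths i m r f hr hf
      rw [h3, mul_zero, sub_zero]
      have h6 : 8 * σ ^ 2 * ∑ j ∈ range i, (2 : ℝ) ^ (j + 1) * ∑ κ ∈ Sn i m (j + 1),
          dth i m r f j κ ≤ 8 * σ ^ 2 * 2 ^ i :=
        mul_le_mul_of_nonneg_left h5 (by positivity)
      have h7 : (0 : ℝ) ≤ σ ^ 2 * 2 ^ i := by positivity
      linarith
    · intro j hj
      simp only [hg]
      unfold Ai
      rw [if_neg fun h => (ends hr hj.le).1 h.1, zero_mul]
    · intro j hj
      simp only [hg]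
      unfold Ai
      rw [if_neg fun h => (ends hr hj.le).2 h.1, zero_mul]
  · -- the deaths
    refine le_trans (le_of_eq ?_) (deaths i m r f hr hf)
    refine sum_congr rfl fun j _ => ?_
    congr 1
    refine sum_congr rfl fun κ _ => ?_
    unfold dth
    split_ifs with h h0 h1 h2 h2 h1 h2 h2 <;>
    · first
      | (have l0 := long_child hr h.1 (c := 0) le_rfl (by norm_num)
         have l1 := long_child hr h.1 (c := 1) (by norm_num) (by norm_num)
         have l2 := long_child hr h.1 (c := 2) (by norm_num) le_rfl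
         rw [add_zero] at l0
         unfold Pm Ai
         simp only [h, l0, l1, l2, *, and_self, and_true, true_and, and_false, if_true, if_false]
         norm_num)
      | (unfold Ai
         rw [if_neg h, zero_mul])
  · -- the births
    refine le_trans ?_ (tele_L i m r hr)
    refine sum_le_sum fun j _ => mul_le_mul_of_nonneg_left (sum_le_sum fun κ _ => ?_) (by positivity)
    refine le_trans (le_of_eq ?_) (brt_le i m r f hr hf j κ)
    split_ifs with h
    · have e1 : Ai r i m f (j + 1) κ = 1 := by unfold Ai; rw [if_pos h]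
      rw [e1]
      ring
    all_goals
      have e1 : Ai r i m f (j + 1) κ = 0 := by unfold Ai; rw [if_neg h]
      rw [e1]
      unfold Pm Ai
      simp only [*, if_true, if_false]
      norm_num

end Pool.Agent.H94.BOU
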