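import Pool.Agent.H31.BOU.Targets1

/-!
Row JL of bou_modules: the jump lemma on the tree of dyadic squares.
-/

set_option autoImplicit false

namespace Pool.Agent.H94.BOU

open Finset Pool.Agent.H31.BOU

theorem sum_two_mul (m : ℕ) (g : ℕ → ℝ) :
    ∑ p ∈ range (2 * m), g p = ∑ p ∈ range m, ∑ c ∈ range 2, g (2 * p + c) := by
  induction m with
  | zero => simp
  | succ m ih =>
    rw [show 2 * (m + 1) = 2 * m + 1 + 1 by ring, sum_range_succ, sum_range_succ, ih,
      sum_range_succ (fun p => ∑ c ∈ range 2, g (2 * p + c)) m]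
    simp [sum_range_succ]
    ring

theorem sum_two_mul2 (m : ℕ) (g : ℕ → ℕ → ℝ) :
    ∑ p ∈ range (2 * m), ∑ q ∈ range (2 * m), g p q =
      ∑ p ∈ range m, ∑ q ∈ range m, ∑ c ∈ range 2, ∑ d ∈ range 2, g (2 * p + c) (2 * q + d) := by
  rw [sum_two_mul]
  refine sum_congr rfl fun p _ => ?_
  have h : ∀ c ∈ range 2, ∑ q ∈ range (2 * m), g (2 * p + c) q =
      ∑ q ∈ range m, ∑ d ∈ range 2, g (2 * p + c) (2 * q + d) := fun c _ => sum_two_mul m _
  rw [sum_congr rfl h, sum_comm]

section jl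

variable {ι : Type} [Fintype ι] (J : ℕ) (x : ℕ → ℕ → ℕ → EuclideanSpace ℂ ι)
  (exc : ℕ → ℕ → ℕ → Prop) (η : ℝ)

open Classical in
/-- the references, by recursion from the top -/
noncomputable def refs : ℕ → ℕ → ℕ → EuclideanSpace ℂ ι
  | 0, p, q => x J p q
  | s + 1, p, q =>
    if exc (J - (s + 1)) p q ∨ exc (J - s) (p / 2) (q / 2) ∨
        η ≤ ‖x (J - (s + 1)) p q - refs s (p / 2) (q / 2)‖ then x (J - (s + 1)) p q
    else refs s (p / 2) (q / 2)

open Classical in
/-- the value at the last checkpoint -/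
noncomputable def rf (j p q : ℕ) : EuclideanSpace ℂ ι :=
  if j ≤ J then refs J x exc η (J - j) p q else x j p q

/-- the checkpoints -/
def ck (j p q : ℕ) : Prop :=
  J ≤ j ∨ exc j p q ∨ exc (j + 1) (p / 2) (q / 2) ∨
    η ≤ ‖x j p q - rf J x exc η (j + 1) (p / 2) (q / 2)‖

theorem rf_top (p q : ℕ) : rf J x exc η J p q = x J p q := by
  unfold rf
  rw [if_pos le_rfl, Nat.sub_self]
  rfl

open Classical in
theorem rf_step {j : ℕ} (hj : j < J) (p q : ℕ) :
    (ck J x exc η j p q → rf J x exc η j p q = x j p q) ∧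
      (¬ ck J x exc η j p q → rf J x exc η j p q = rf J x exc η (j + 1) (p / 2) (q / 2)) := by
  have e1 : J - j = (J - (j + 1)) + 1 := by omega
  have e2 : J - (J - (j + 1) + 1) = j := by omega
  have e3 : J - (J - (j + 1)) = j + 1 := by omega
  have h1 : rf J x exc η (j + 1) (p / 2) (q / 2) =
      refs J x exc η (J - (j + 1)) (p / 2) (q / 2) := by
    unfold rf
    rw [if_pos (by omega)]
  have h2 : rf J x exc η j p q = if exc j p q ∨ exc (j + 1) (p / 2) (q / 2) ∨
        η ≤ ‖x j p q - refs J x exc η (J - (j + 1)) (p / 2) (q / 2)‖ then x j p q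
      else refs J x exc η (J - (j + 1)) (p / 2) (q / 2) := by
    unfold rf
    rw [if_pos hj.le, e1]
    show (if exc (J - (J - (j + 1) + 1)) p q ∨ exc (J - (J - (j + 1))) (p / 2) (q / 2) ∨
        η ≤ ‖x (J - (J - (j + 1) + 1)) p q -
          refs J x exc η (J - (j + 1)) (p / 2) (q / 2)‖ then x (J - (J - (j + 1) + 1)) p q
      else refs J x exc η (J - (j + 1)) (p / 2) (q / 2)) = _
    rw [e2, e3]
  have h3 : ck J x exc η j p q ↔ (exc j p q ∨ exc (j + 1) (p / 2) (q / 2) ∨
        η ≤ ‖x j p q - refs J x exc η (J - (j + 1)) (p / 2) (q / 2)‖) := by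
    unfold ck
    rw [h1]
    constructor
    · rintro (h | h)
      · omega
      · exact h
    · exact fun h => Or.inr h
  constructor
  · intro h
    rw [h2, if_pos (h3.1 h)]
  · intro h
    rw [h2, if_neg (fun h' => h (h3.2 h')), h1]

theorem rf_chk (j p q : ℕ) (h : ck J x exc η j p q) : rf J x exc η j p q = x j p q := by
  rcases lt_trichotomy j J with hj | hj | hj
  · exact (rf_step J x exc η hj p q).1 h
  · subst hj
    exact rf_top j x exc η p q
  · unfold rf
    rw [if_neg (by omega)]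

theorem refs_Bd {Bd : EuclideanSpace ℂ ι → Prop} (hB : ∀ j p q, Bd (x j p q)) (s : ℕ) :
    ∀ p q, Bd (refs J x exc η s p q) := by
  induction s with
  | zero => exact fun p q => hB _ _ _
  | succ s ih =>
    intro p q
    unfold refs
    split_ifs
    · exact hB _ _ _
    · exact ih _ _

theorem rf_Bd {Bd : EuclideanSpace ℂ ι → Prop} (hB : ∀ j p q, Bd (x j p q)) (j p q : ℕ) :
    Bd (rf J x exc η j p q) := by
  unfold rf
  split_ifs
  · exact refs_Bd J x exc η hB _ _ _
  · exact hB _ _ _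

end jl

open Classical in
theorem pf_JL : T_JL := by
  intro ι _ J x exc e η Bd hη hB he hx
  refine ⟨ck J x exc η, rf J x exc η, fun p q => Or.inl le_rfl, rf_chk J x exc η, ?_, ?_⟩
  · intro j hj p q hck
    have h1 := (rf_step J x exc η hj p q).2 hck
    unfold ck at hck
    push Not at hck
    obtain ⟨_, a1, a2, a3⟩ := hck
    exact ⟨h1, by rw [h1]; exact a3, a1, a2⟩
  · -- the jumps
    set jp : ℕ → ℕ → ℕ → ℝ := fun j p q =>
      if η ≤ ‖x j p q - rf J x exc η (j + 1) (p / 2) (q / 2)‖ then 1 else 0 with hjp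
    set ex : ℕ → ℕ → ℕ → ℝ := fun j p q => if exc j p q then 1 else 0 with hex
    set Φ : ℕ → ℝ := fun j => (4 : ℝ) ^ j * ∑ p ∈ range (2 ^ (J - j)), ∑ q ∈ range (2 ^ (J - j)),
      ‖x j p q - rf J x exc η j p q‖ ^ 2 with hΦ
    set E : ℕ → ℝ := fun j => (4 : ℝ) ^ j * ∑ p ∈ range (2 ^ (J - j)), ∑ q ∈ range (2 ^ (J - j)),
      ex j p q with hE
    have hpow : ∀ j, j < J → 2 ^ (J - j) = 2 * 2 ^ (J - (j + 1)) := by
      intro j hj
      rw [show J - j = (J - (j + 1)) + 1 by omega, pow_succ]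
      ring
    have hex0 : ∀ j p q, 0 ≤ ex j p q := fun j p q => by
      simp only [hex]; split_ifs <;> norm_num
    have hjp0 : ∀ j p q, 0 ≤ jp j p q := fun j p q => by
      simp only [hjp]; split_ifs <;> norm_num
    have hE0 : ∀ j, 0 ≤ E j := fun j => mul_nonneg (by positivity)
      (sum_nonneg fun p _ => sum_nonneg fun q _ => hex0 j p q)
    -- the recursion for the potential
    have hrec : ∀ j, j < J → η ^ 2 * ((4 : ℝ) ^ j * ∑ p ∈ range (2 ^ (J - j)),
        ∑ q ∈ range (2 ^ (J - j)), jp j p q) + Φ j ≤ Φ (j + 1) + (4 : ℝ) ^ (j + 1) *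
          ∑ p ∈ range (2 ^ (J - (j + 1))), ∑ q ∈ range (2 ^ (J - (j + 1))), e j p q := by
      intro j hj
      have h1 : ∀ p q, η ^ 2 * jp j p q + ‖x j p q - rf J x exc η j p q‖ ^ 2 ≤
          ‖x j p q - rf J x exc η (j + 1) (p / 2) (q / 2)‖ ^ 2 := by
        intro p q
        by_cases hc : ck J x exc η j p q
        · rw [(rf_step J x exc η hj p q).1 hc, sub_self, norm_zero]
          simp only [hjp]
          split_ifs with h
          · have := pow_le_pow_left₀ hη.le h 2
            simpa using this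
          · simp
        · rw [(rf_step J x exc η hj p q).2 hc]
          have h2 : ¬ η ≤ ‖x j p q - rf J x exc η (j + 1) (p / 2) (q / 2)‖ := fun h =>
            hc (Or.inr (Or.inr (Or.inr h)))
          simp only [hjp, if_neg h2]
          simp
      have h2 : η ^ 2 * ((4 : ℝ) ^ j * ∑ p ∈ range (2 ^ (J - j)),
          ∑ q ∈ range (2 ^ (J - j)), jp j p q) + Φ j ≤
          (4 : ℝ) ^ j * ∑ p ∈ range (2 ^ (J - j)), ∑ q ∈ range (2 ^ (J - j)),
            ‖x j p q - rf J x exc η (j + 1) (p / 2) (q / 2)‖ ^ 2 := by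
        have h3 : η ^ 2 * ((4 : ℝ) ^ j * ∑ p ∈ range (2 ^ (J - j)),
            ∑ q ∈ range (2 ^ (J - j)), jp j p q) + Φ j =
            (4 : ℝ) ^ j * ∑ p ∈ range (2 ^ (J - j)), ∑ q ∈ range (2 ^ (J - j)),
              (η ^ 2 * jp j p q + ‖x j p q - rf J x exc η j p q‖ ^ 2) := by
          simp only [hΦ, sum_add_distrib, ← mul_sum]
          ring
        rw [h3]
        refine mul_le_mul_of_nonneg_left ?_ (by positivity)
        exact sum_le_sum fun p _ => sum_le_sum fun q _ => h1 p q
      refine h2.trans ?_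
      rw [hpow j hj, sum_two_mul2 (2 ^ (J - (j + 1)))
        (fun p q => ‖x j p q - rf J x exc η (j + 1) (p / 2) (q / 2)‖ ^ 2)]
      have h4 : ∀ p ∈ range (2 ^ (J - (j + 1))), ∀ q ∈ range (2 ^ (J - (j + 1))),
          ∑ c ∈ range 2, ∑ d ∈ range 2, ‖x j (2 * p + c) (2 * q + d) -
            rf J x exc η (j + 1) ((2 * p + c) / 2) ((2 * q + d) / 2)‖ ^ 2 ≤
          4 * (‖x (j + 1) p q - rf J x exc η (j + 1) p q‖ ^ 2 + e j p q) := by
        intro p hp q hq
        have h5 := hx j hj p (mem_range.1 hp) q (mem_range.1 hq) (rf J x exc η (j + 1) p q)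
          (rf_Bd J x exc η hB _ _ _)
        have h6 : ∑ c ∈ range 2, ∑ d ∈ range 2, ‖x j (2 * p + c) (2 * q + d) -
            rf J x exc η (j + 1) ((2 * p + c) / 2) ((2 * q + d) / 2)‖ ^ 2 =
            ∑ c ∈ range 2, ∑ d ∈ range 2, ‖x j (2 * p + c) (2 * q + d) -
            rf J x exc η (j + 1) p q‖ ^ 2 := by
          refine sum_congr rfl fun c hc => sum_congr rfl fun d hd => ?_
          rw [mem_range] at hc hd
          rw [show (2 * p + c) / 2 = p by omega, show (2 * q + d) / 2 = q by omega]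
        rw [h6]
        linarith
      have h7 : ∑ p ∈ range (2 ^ (J - (j + 1))), ∑ q ∈ range (2 ^ (J - (j + 1))),
          ∑ c ∈ range 2, ∑ d ∈ range 2, ‖x j (2 * p + c) (2 * q + d) -
            rf J x exc η (j + 1) ((2 * p + c) / 2) ((2 * q + d) / 2)‖ ^ 2 ≤
          ∑ p ∈ range (2 ^ (J - (j + 1))), ∑ q ∈ range (2 ^ (J - (j + 1))),
            4 * (‖x (j + 1) p q - rf J x exc η (j + 1) p q‖ ^ 2 + e j p q) :=
        sum_le_sum fun p hp => sum_le_sum fun q hq => h4 p hp q hq
      refine (mul_le_mul_of_nonneg_left h7 (by positivity)).trans (le_of_eq ?_)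
      simp only [hΦ, ← mul_sum, sum_add_distrib, pow_succ]
      ring
    have hsum : η ^ 2 * ∑ j ∈ range J, (4 : ℝ) ^ j * ∑ p ∈ range (2 ^ (J - j)),
        ∑ q ∈ range (2 ^ (J - j)), jp j p q ≤ ∑ j ∈ range J, (4 : ℝ) ^ (j + 1) *
          ∑ p ∈ range (2 ^ (J - (j + 1))), ∑ q ∈ range (2 ^ (J - (j + 1))), e j p q := by
      have h1 := sum_le_sum fun j (hj : j ∈ range J) => hrec j (mem_range.1 hj)
      rw [sum_add_distrib, sum_add_distrib, ← mul_sum] at h1
      have h2 : ∑ j ∈ range J, Φ (j + 1) - ∑ j ∈ range J, Φ j = Φ J - Φ 0 := by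
        rw [← sum_sub_distrib, sum_range_sub]
      have h3 : Φ J = 0 := by
        simp only [hΦ, rf_top, sub_self, norm_zero]
        simp
      have h4 : 0 ≤ Φ 0 := mul_nonneg (by positivity)
        (sum_nonneg fun p _ => sum_nonneg fun q _ => sq_nonneg _)
      linarith
    -- the checkpoints
    have hck : ∀ j, j < J → (4 : ℝ) ^ j * ∑ p ∈ range (2 ^ (J - j)), ∑ q ∈ range (2 ^ (J - j)),
        (if ck J x exc η j p q then (1 : ℝ) else 0) ≤ E j + E (j + 1) +
          (4 : ℝ) ^ j * ∑ p ∈ range (2 ^ (J - j)), ∑ q ∈ range (2 ^ (J - j)), jp j p q := by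
      intro j hj
      have h1 : ∀ p q, (if ck J x exc η j p q then (1 : ℝ) else 0) ≤
          ex j p q + ex (j + 1) (p / 2) (q / 2) + jp j p q := by
        intro p q
        by_cases hc : ck J x exc η j p q
        · rw [if_pos hc]
          rcases hc with h | h | h | h
          · omega
          · have : ex j p q = 1 := by simp only [hex, if_pos h]
            linarith [hex0 (j + 1) (p / 2) (q / 2), hjp0 j p q]
          · have : ex (j + 1) (p / 2) (q / 2) = 1 := by simp only [hex, if_pos h]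
            linarith [hex0 j p q, hjp0 j p q]
          · have : jp j p q = 1 := by simp only [hjp, if_pos h]
            linarith [hex0 j p q, hex0 (j + 1) (p / 2) (q / 2)]
        · rw [if_neg hc]
          linarith [hex0 (j + 1) (p / 2) (q / 2), hjp0 j p q, hex0 j p q]
      have h2 : ∑ p ∈ range (2 ^ (J - j)), ∑ q ∈ range (2 ^ (J - j)),
          (if ck J x exc η j p q then (1 : ℝ) else 0) ≤
          ∑ p ∈ range (2 ^ (J - j)), ∑ q ∈ range (2 ^ (J - j)),
            (ex j p q + ex (j + 1) (p / 2) (q / 2) + jp j p q) :=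
        sum_le_sum fun p _ => sum_le_sum fun q _ => h1 p q
      refine (mul_le_mul_of_nonneg_left h2 (by positivity)).trans (le_of_eq ?_)
      have h3 : ∑ p ∈ range (2 ^ (J - j)), ∑ q ∈ range (2 ^ (J - j)),
          ex (j + 1) (p / 2) (q / 2) =
          4 * ∑ p ∈ range (2 ^ (J - (j + 1))), ∑ q ∈ range (2 ^ (J - (j + 1))),
            ex (j + 1) p q := by
        rw [hpow j hj, sum_two_mul2 (2 ^ (J - (j + 1))) (fun p q => ex (j + 1) (p / 2) (q / 2)),
          mul_sum]
        refine sum_congr rfl fun p _ => ?_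
        rw [mul_sum]
        refine sum_congr rfl fun q _ => ?_
        have h4 : ∑ c ∈ range 2, ∑ d ∈ range 2,
            ex (j + 1) ((2 * p + c) / 2) ((2 * q + d) / 2) =
            ∑ _c ∈ range 2, ∑ _d ∈ range 2, ex (j + 1) p q := by
          refine sum_congr rfl fun c hc => sum_congr rfl fun d hd => ?_
          rw [mem_range] at hc hd
          rw [show (2 * p + c) / 2 = p by omega, show (2 * q + d) / 2 = q by omega]
        rw [h4]
        simp
        ring
      simp only [sum_add_distrib]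
      rw [h3]
      simp only [hE, pow_succ]
      ring
    rw [sum_range_succ]
    have hlast : (4 : ℝ) ^ J * ∑ p ∈ range (2 ^ (J - J)), ∑ q ∈ range (2 ^ (J - J)),
        (if ck J x exc η J p q then (1 : ℝ) else 0) ≤ 4 ^ J := by
      rw [Nat.sub_self, pow_zero]
      simp only [range_one, sum_singleton]
      split_ifs <;> simp
    have h1 := sum_le_sum fun j (hj : j ∈ range J) => hck j (mem_range.1 hj)
    rw [sum_add_distrib, sum_add_distrib] at h1
    have h2 : ∑ j ∈ range J, E j ≤ ∑ j ∈ range (J + 1), E j := by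
      rw [sum_range_succ]
      linarith [hE0 J]
    have h3 : ∑ j ∈ range J, E (j + 1) ≤ ∑ j ∈ range (J + 1), E j := by
      rw [sum_range_succ' E J]
      linarith [hE0 0]
    have h4 : ∑ j ∈ range J, (4 : ℝ) ^ j * ∑ p ∈ range (2 ^ (J - j)),
        ∑ q ∈ range (2 ^ (J - j)), jp j p q ≤ (1 / η ^ 2) * ∑ j ∈ range J, (4 : ℝ) ^ (j + 1) *
          ∑ p ∈ range (2 ^ (J - (j + 1))), ∑ q ∈ range (2 ^ (J - (j + 1))), e j p q := by
      rw [one_div, ← div_eq_inv_mul, le_div_iff₀ (by positivity), mul_comm]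
      exact hsum
    linarith

end Pool.Agent.H94.BOU
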